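import Pool.Agent.H69.LQ.Lib
import Pool.Agent.H69.LNN.Targets
import Pool.Agent.H69.LNN.Lib
import Pool.Agent.H69.LNN.Pt

/-!
# A3: the inequality on the sphere for one function
-/

set_option autoImplicit false

open MeasureTheory Metric Set
open scoped ENNReal

namespace Pool.Agent.H46.LNN

open Pool.Agent.H85.LK (E adm lam Ann)
open Pool.Agent.H69.LQ Pool.Agent.H69.LNN

variable {N : ℕ}

/-- the potential is bounded and measurable -/
theorem BM_VV {L K G C₀ : ℝ} {ρ R r₁ : Sp N → ℝ} (hK : 0 ≤ K) (hρ : BM ρ) (hh : BM (hR R))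
    (hr : BM r₁) : BM (VV L K G C₀ ρ R r₁) := by
  classical
  have h1 : BM (fun θ => be N L * (ht (hR R θ) + 1 / 1000 * ht (hR R θ) ^ 2) - G * r₁ θ ^ N) :=
    (((BM_ht hh).add (((BM_ht hh).pow 2).const_mul _)).const_mul _).sub ((hr.pow N).const_mul _)
  have hm : BM (fun θ => max (ρ θ) 1) := BM_max hρ (BM_const 1)
  have hl : BM (fun θ => Real.log (max (ρ θ) 1)) := by
    obtain ⟨a1, M, hM⟩ := hm
    refine ⟨Real.measurable_log.comp a1, Real.log (max M 1), fun θ => ?_⟩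
    have b1 : 1 ≤ max (ρ θ) 1 := le_max_right _ _
    have b2 : max (ρ θ) 1 ≤ max M 1 := by
      refine max_le ?_ (le_max_right _ _)
      exact ((le_max_left _ _).trans ((le_abs_self _).trans (hM θ))).trans (le_max_left _ _)
    rw [abs_of_nonneg (Real.log_nonneg b1)]
    exact Real.log_le_log (by linarith) b2
  have h2 : BM (fun θ => 1 / 2 * (Real.log (max (ρ θ) 1) + C₀)) :=
    (hl.add (BM_const C₀)).const_mul _
  have h3 := BM_ite (p := fun θ => ρ θ ≤ Real.exp K) (meas_Gk hρ) h1 h2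
  have h4 : VV L K G C₀ ρ R r₁ = fun θ => if ρ θ ≤ Real.exp K then
      be N L * (ht (hR R θ) + 1 / 1000 * ht (hR R θ) ^ 2) - G * r₁ θ ^ N
      else 1 / 2 * (Real.log (max (ρ θ) 1) + C₀) := by
    funext θ
    unfold VV
    by_cases h : ρ θ ≤ Real.exp K
    · rw [if_pos h, if_pos h]
    · rw [if_neg h, if_neg h]
      have : 1 ≤ ρ θ := by
        have := Real.one_le_exp hK
        push Not at h
        linarith
      rw [max_eq_left this]
  rw [h4]
  exact h3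

/-- the term of the rays of large volume -/
theorem BM_Lg {K C₀ : ℝ} {ρ : Sp N → ℝ} (hK : 0 ≤ K) (hρ : BM ρ) :
    BM ((Gk K ρ)ᶜ.indicator fun θ =>
      (Real.log (ρ θ) + C₀) + 100 * (Real.log (ρ θ) + C₀) ^ 2) := by
  have hm : BM (fun θ => max (ρ θ) 1) := BM_max hρ (BM_const 1)
  have hl : BM (fun θ => Real.log (max (ρ θ) 1)) := by
    obtain ⟨a1, M, hM⟩ := hm
    refine ⟨Real.measurable_log.comp a1, Real.log (max M 1), fun θ => ?_⟩
    have b1 : 1 ≤ max (ρ θ) 1 := le_max_right _ _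
    have b2 : max (ρ θ) 1 ≤ max M 1 := by
      refine max_le ?_ (le_max_right _ _)
      exact ((le_max_left _ _).trans ((le_abs_self _).trans (hM θ))).trans (le_max_left _ _)
    rw [abs_of_nonneg (Real.log_nonneg b1)]
    exact Real.log_le_log (by linarith) b2
  have h2 : BM (fun θ => (Real.log (max (ρ θ) 1) + C₀) +
      100 * (Real.log (max (ρ θ) 1) + C₀) ^ 2) :=
    (hl.add (BM_const C₀)).add (((hl.add (BM_const C₀)).pow 2).const_mul _)
  have h3 := BM_ind h2 (meas_Gk (K := K) hρ).compl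
  convert h3 using 1
  funext θ
  by_cases h : θ ∈ (Gk K ρ)ᶜ
  · rw [indicator_of_mem h, indicator_of_mem h]
    have h' : Real.exp K < ρ θ := not_mem_Gk.1 h
    have : 1 ≤ ρ θ := by
      have := Real.one_le_exp hK
      linarith
    rw [max_eq_left this]
  · rw [indicator_of_notMem h, indicator_of_notMem h]

theorem LL_sub_const (T : E N → ℝ) (s : ℝ) (i j : Fin N) (x : E N) :
    LL i j (fun x => T x - s) x = LL i j T x := by
  unfold LL
  rw [fderiv_sub_const]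

theorem Gs_sub_const (T : E N → ℝ) (s : ℝ) (x : E N) :
    Gs (fun x => T x - s) x = Gs T x := by
  unfold Gs
  simp only [LL_sub_const]

theorem pf_A3 (hMP : T_MP) (hMO : T_MO) (hPY : T_PY) (hQU : T_QU) (hPV : T_PV) (hL1 : T_L1)
    (hL2 : T_L2) (hNB : T_NB) (hVP : T_VP) (hXN : T_XN) (hVT : T_VT) (hL4 : T_L4) : T_A3 := by
  intro C₀ K G hC₀ hK hG
  obtain ⟨CL, N1, hCL, hN1, hL2'⟩ := hL2
  obtain ⟨κ1, N2, hκ1, hN2, hVP'⟩ := hVP (1 / 1000) (by norm_num) (by norm_num)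
  obtain ⟨κ, N3, hκ, hN3, hVT'⟩ := hVT C₀ K κ1 hC₀ hK hκ1
  refine ⟨max 1 (Real.log (1000 * G + 1)), le_max_left _ _, fun K₁ hK₁ =>
    ⟨κ, max (max N1 N2) (max N3 (max 100 ⌈(50 * CL) ^ 2⌉₊)), hκ,
      hN1.trans ((le_max_left _ _).trans (le_max_left _ _)), ?_⟩⟩
  intro N L ρ R d H r₁ T hN hFz hρ hRb hd hH hr1 hδ hrel hd0 hH1 hρ1 hr1' hcl hclH hT
  have hNN1 : N1 ≤ N := (le_max_left _ _).trans ((le_max_left _ _).trans hN)
  have hNN2 : N2 ≤ N := (le_max_right _ _).trans ((le_max_left _ _).trans hN)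
  have hNN3 : N3 ≤ N := (le_max_left _ _).trans ((le_max_right _ _).trans hN)
  have hN100 : 100 ≤ N := (le_max_left _ _).trans
    ((le_max_right _ _).trans ((le_max_right _ _).trans hN))
  have hNC : ⌈(50 * CL) ^ 2⌉₊ ≤ N := (le_max_right _ _).trans
    ((le_max_right _ _).trans ((le_max_right _ _).trans hN))
  have hNR : (100 : ℝ) ≤ N := by exact_mod_cast hN100
  have hN0 : (0 : ℝ) < N := by linarith
  have hN2' : 2 ≤ N := by omega
  have hN3' : 3 ≤ N := by omega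
  have hsq : 50 * CL ≤ Real.sqrt N := by
    apply Real.le_sqrt_of_sq_le
    exact (Nat.le_ceil _).trans (by exact_mod_cast hNC)
  have hsq0 : 0 < Real.sqrt N := Real.sqrt_pos.2 hN0
  -- the coefficient
  obtain ⟨hNP, hb1, hb2⟩ := hNB N L hN3' hFz
  have hb3 : be N L ≤ 51 / 100 := by
    have h1 := hL2' N L hNN1 hFz
    have h2 : CL / Real.sqrt N ≤ 1 / 50 := by
      rw [div_le_iff₀ hsq0]; linarith
    have h3 : 2 * L / (N : ℝ) ^ 2 ≤ 51 / 100 := by
      rw [div_le_iff₀ (by positivity)]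
      have h4 : (N : ℝ) ^ 2 / 4 * (1 + CL / Real.sqrt N) ≤ (N : ℝ) ^ 2 / 4 * (1 + 1 / 50) := by
        gcongr
      nlinarith
    linarith
  obtain ⟨b, hb⟩ : ∃ b, b = be N L := ⟨_, rfl⟩
  -- the potential V
  obtain ⟨V, hV, hV0, hVe, hVs, hVl⟩ := hVT' N L ρ R d H hNN3 hFz hρ hRb hd hH hδ hrel hd0 hH1
    hρ1 hcl hclH
  -- bounded measurable functions
  have hh : BM (hR R) := BM_hR hRb hδ
  have hGm : MeasurableSet (Gk K ρ) := meas_Gk hρ
  have hTb : BM (rs T 1) := BM_cont (by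
    unfold rs
    exact hT.continuous.comp (by fun_prop))
  obtain ⟨s, hs⟩ : ∃ s, s = av (rs T 1) := ⟨_, rfl⟩
  obtain ⟨ω, hω⟩ : ∃ ω : E N → ℝ, ω = fun x => T x - s := ⟨_, rfl⟩
  have hωs : ContDiff ℝ (⊤ : ℕ∞) ω := by
    rw [hω]; exact hT.sub contDiff_const
  obtain ⟨w, hw⟩ : ∃ w : Sp N → ℝ, w = rs ω 1 := ⟨_, rfl⟩
  have hwT : ∀ θ, w θ = rs T 1 θ - s := by
    intro θ; rw [hw, hω]; rfl
  have hwb : BM w := by
    have : w = fun θ => rs T 1 θ - s := funext hwT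
    rw [this]; exact hTb.sub (BM_const s)
  have hav1 : av (fun _ : Sp N => (1 : ℝ)) = 1 := (hMO N hN2').1
  have havc : ∀ c : ℝ, av (fun _ : Sp N => c) = c := by
    intro c
    have := av_const_mul (N := N) c (fun _ => 1)
    rw [hav1, mul_one] at this
    simpa using this
  have hw0 : av w = 0 := by
    have : w = fun θ => rs T 1 θ - s := funext hwT
    rw [this, av_sub hTb (BM_const s), havc, hs, sub_self]
  have hT2 : av (fun θ => rs T 1 θ ^ 2) = s ^ 2 + av (fun θ => w θ ^ 2) := by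
    have h1 : (fun θ => rs T 1 θ ^ 2) = fun θ => (s ^ 2 + 2 * s * w θ) + w θ ^ 2 := by
      funext θ; rw [hwT]; ring
    rw [h1, av_add ((BM_const _).add (hwb.const_mul _)) (hwb.pow 2),
      av_add (BM_const _) (hwb.const_mul _), av_const_mul, hw0, havc]
    ring
  have hGsω : av (fun θ : Sp N => Gs ω (θ : E N)) = av (fun θ : Sp N => Gs T (θ : E N)) := by
    congr 1
    funext θ
    rw [hω, Gs_sub_const]
  -- Pythagoras
  obtain ⟨hPw, -⟩ := hPY N w hN2' hwb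
  obtain ⟨f, hf⟩ : ∃ f : Sp N → ℝ, f = (Gk K ρ).indicator (fun θ => phi (hR R θ)) := ⟨_, rfl⟩
  have hfb : BM f := by rw [hf]; exact BM_ind (BM_phi hh) hGm
  obtain ⟨hPf, -⟩ := hPY N f hN2' hfb
  have hn0w : n0 w = 0 := by unfold n0; rw [hw0]; ring
  -- the functions
  obtain ⟨Ψ, hΨ⟩ : ∃ Ψ : Sp N → ℝ, Ψ = (Gk K ρ).indicator (fun θ => psi (hR R θ)) := ⟨_, rfl⟩
  obtain ⟨Ht, hHt⟩ : ∃ Ht : Sp N → ℝ, Ht = (Gk K ρ).indicator (fun θ => ht (hR R θ) ^ 2) :=
    ⟨_, rfl⟩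
  obtain ⟨Rr, hRr⟩ : ∃ Rr : Sp N → ℝ, Rr = (Gk K ρ).indicator (fun θ => r₁ θ ^ N) := ⟨_, rfl⟩
  obtain ⟨Lg, hLg⟩ : ∃ Lg : Sp N → ℝ, Lg = (Gk K ρ)ᶜ.indicator (fun θ =>
      (Real.log (ρ θ) + C₀) + 100 * (Real.log (ρ θ) + C₀) ^ 2) := ⟨_, rfl⟩
  have hΨb : BM Ψ := by rw [hΨ]; exact BM_ind (BM_psi hh) hGm
  have hHtb : BM Ht := by rw [hHt]; exact BM_ind ((BM_ht hh).pow 2) hGm
  have hRrb : BM Rr := by rw [hRr]; exact BM_ind (hr1.pow N) hGm
  have hLgb : BM Lg := by rw [hLg]; exact BM_Lg (by linarith) hρ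
  have hf2 : av ((Gk K ρ).indicator fun θ => phi (hR R θ) ^ 2) = av (fun θ => f θ ^ 2) := by
    congr 1
    funext θ
    rw [hf]
    by_cases h : θ ∈ Gk K ρ
    · rw [indicator_of_mem h, indicator_of_mem h]
    · rw [indicator_of_notMem h, indicator_of_notMem h]; ring
  -- the pointwise inequality
  have hpt : ∀ θ, VV L K G C₀ ρ R r₁ θ * rs T 1 θ ^ 2 ≤
      s ^ 2 * (b * Ψ θ + b / 500 * Ht θ - b / 2 * (G * Rr θ) + b * Lg θ) +
        2 * b * s * (f θ * w θ) + V θ * w θ ^ 2 + 1 / 200 * w θ ^ 2 := by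
    intro θ
    have hx : rs T 1 θ = s + w θ := by rw [hwT]; ring
    rw [hx]
    by_cases h : θ ∈ Gk K ρ
    · have h' : θ ∉ (Gk K ρ)ᶜ := fun h2 => h2 h
      rw [hΨ, hHt, hRr, hLg, hf]
      rw [indicator_of_mem h, indicator_of_mem h, indicator_of_mem h, indicator_of_mem h,
        indicator_of_notMem h']
      have hmem : ρ θ ≤ Real.exp K := mem_Gk.1 h
      have hg0 : 0 ≤ G * r₁ θ ^ N := mul_nonneg hG (pow_nonneg (hr1' θ).1 N)
      have hg1 : G * r₁ θ ^ N ≤ 1 / 1000 := by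
        have h1 : r₁ θ ^ N ≤ Real.exp (-K₁) := by
          calc r₁ θ ^ N ≤ (aa N K₁) ^ N := pow_le_pow_left₀ (hr1' θ).1 (hr1' θ).2 N
            _ = Real.exp (-K₁) := by
              unfold aa
              rw [← Real.exp_nat_mul]
              congr 1
              field_simp
        have h2 : 1000 * G + 1 ≤ Real.exp K₁ := by
          have h3 : Real.log (1000 * G + 1) ≤ K₁ := (le_max_right _ _).trans hK₁
          calc 1000 * G + 1 = Real.exp (Real.log (1000 * G + 1)) :=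
                (Real.exp_log (by linarith)).symm
            _ ≤ Real.exp K₁ := Real.exp_le_exp.2 h3
        have h4 : Real.exp (-K₁) * Real.exp K₁ = 1 := by
          rw [← Real.exp_add]; simp
        have h5 : 0 < Real.exp (-K₁) := Real.exp_pos _
        calc G * r₁ θ ^ N ≤ G * Real.exp (-K₁) := mul_le_mul_of_nonneg_left h1 hG
          _ ≤ 1 / 1000 := by nlinarith
      have hp := pt_small b (G * r₁ θ ^ N) (V θ) (hR R θ) s (w θ) (by rw [hb]; linarith) hg0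
        (by rw [hb]; exact hVs θ hmem)
      have hVV : VV L K G C₀ ρ R r₁ θ =
          b * (ht (hR R θ) + 1 / 1000 * ht (hR R θ) ^ 2) - G * r₁ θ ^ N := by
        unfold VV
        rw [if_pos hmem, hb]
      rw [hVV]
      have e1 : G * r₁ θ ^ N * w θ ^ 2 ≤ 1 / 1000 * w θ ^ 2 :=
        mul_le_mul_of_nonneg_right hg1 (sq_nonneg _)
      have e2 : b / 2 * (G * r₁ θ ^ N) * s ^ 2 ≤ 1 / 2 * (G * r₁ θ ^ N) * s ^ 2 := by
        have : b / 2 ≤ 1 / 2 := by rw [hb]; linarith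
        gcongr
      nlinarith [sq_nonneg (w θ)]
    · have h' : θ ∈ (Gk K ρ)ᶜ := h
      rw [hΨ, hHt, hRr, hLg, hf]
      rw [indicator_of_notMem h, indicator_of_notMem h, indicator_of_notMem h,
        indicator_of_notMem h, indicator_of_mem h']
      have hlt : Real.exp K < ρ θ := not_mem_Gk.1 h
      have hVV : VV L K G C₀ ρ R r₁ θ = 1 / 2 * (Real.log (ρ θ) + C₀) := by
        unfold VV
        rw [if_neg (not_le.2 hlt)]
      rw [hVV]
      have hp := pt_large (1 / 2 * (Real.log (ρ θ) + C₀)) (V θ) s (w θ) (hVl θ hlt)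
      have hlog : K ≤ Real.log (ρ θ) := by
        have : Real.log (Real.exp K) ≤ Real.log (ρ θ) := Real.log_le_log (Real.exp_pos _) hlt.le
        rwa [Real.log_exp] at this
      obtain ⟨l, hl⟩ : ∃ l, l = Real.log (ρ θ) + C₀ := ⟨_, rfl⟩
      rw [← hl] at hp ⊢
      have hl0 : 0 ≤ l := by rw [hl]; linarith
      have e1 : (1 / 2 * l + 200 * (1 / 2 * l) ^ 2) * s ^ 2 ≤ b * (l + 100 * l ^ 2) * s ^ 2 := by
        apply mul_le_mul_of_nonneg_right _ (sq_nonneg _)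
        have : 1 / 2 ≤ b := by rw [hb]; exact hb1
        nlinarith [sq_nonneg l]
      nlinarith [sq_nonneg (w θ)]
  -- integrate
  have hVVb : BM (VV L K G C₀ ρ R r₁) := BM_VV (by linarith) hρ hh hr1
  have hint : av (fun θ => VV L K G C₀ ρ R r₁ θ * rs T 1 θ ^ 2) ≤
      s ^ 2 * (b * av Ψ + b / 500 * av Ht - b / 2 * (G * av Rr) + b * av Lg) +
        2 * b * s * av (fun θ => f θ * w θ) + av (fun θ => V θ * w θ ^ 2) +
        1 / 200 * av (fun θ => w θ ^ 2) := by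
    have h1 : BM (fun θ => b * Ψ θ + b / 500 * Ht θ) :=
      (hΨb.const_mul b).add (hHtb.const_mul _)
    have h2 : BM (fun θ => b * Ψ θ + b / 500 * Ht θ - b / 2 * (G * Rr θ)) :=
      h1.sub ((hRrb.const_mul _).const_mul _)
    have h3 : BM (fun θ => b * Ψ θ + b / 500 * Ht θ - b / 2 * (G * Rr θ) + b * Lg θ) :=
      h2.add (hLgb.const_mul _)
    have h4 : BM (fun θ => s ^ 2 *
        (b * Ψ θ + b / 500 * Ht θ - b / 2 * (G * Rr θ) + b * Lg θ)) := h3.const_mul _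
    have h5 : BM (fun θ => 2 * b * s * (f θ * w θ)) := (hfb.mul hwb).const_mul _
    have h6 : BM (fun θ => V θ * w θ ^ 2) := hV.mul (hwb.pow 2)
    have h7 : BM (fun θ => 1 / 200 * w θ ^ 2) := (hwb.pow 2).const_mul _
    have h8 := av_mono (hVVb.mul (hTb.pow 2)) (((h4.add h5).add h6).add h7) hpt
    rw [av_add ((h4.add h5).add h6) h7, av_add (h4.add h5) h6, av_add h4 h5, av_const_mul,
      av_add h2 (hLgb.const_mul _), av_sub h1 ((hRrb.const_mul _).const_mul _),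
      av_add (hΨb.const_mul b) (hHtb.const_mul _), av_const_mul, av_const_mul, av_const_mul,
      av_const_mul, av_const_mul, av_const_mul, av_const_mul] at h8
    exact h8
  -- the form with a positive potential
  have hvp := hVP' N ω V hNN2 hωs hV hV0 hVe
  rw [hGsω, ← hw] at hvp
  -- mixed terms
  have hFb : BM (fun θ => (-(b * s)) * f θ) := hfb.const_mul _
  have hxn := hXN N (fun θ => (-(b * s)) * f θ) w (98 / 100) (198 / 100) (298 / 100) hN2' hFb hwb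
    hw0 (by norm_num) (by norm_num) (by norm_num)
  rw [n1_const_mul, n2_const_mul, n3_const_mul] at hxn
  have hFw : av (fun θ => (-(b * s)) * f θ * w θ) = -(b * s) * av (fun θ => f θ * w θ) := by
    rw [← av_const_mul]
    congr 1
    funext θ
    ring
  rw [hFw] at hxn
  -- conclusion
  have hMM : MM K C₀ ρ R = -av Ψ - (1 / 4 + 1 / 50) * (av (fun θ => f θ ^ 2) + n1 f) -
      1 / 500 * av Ht - av Lg := by
    unfold MM
    rw [hf2, ← hf, ← hΨ, ← hHt, ← hLg]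
  rw [hMM, ← hRr, ← hs, ← hb]
  unfold QQ
  have g1 := n1_nonneg w
  have g2 := n2_nonneg w
  have g3 := n3_nonneg w
  have g4 := n1_nonneg f
  have g5 := n2_nonneg f
  have g6 := n3_nonneg f
  have g7 := n0_nonneg f
  have hfrac : (99 / 100 : ℝ) ≤ ((N : ℝ) - 1) / N := by
    rw [le_div_iff₀ hN0]; linarith
  obtain ⟨q, hq⟩ : ∃ q, q = ((N : ℝ) - 1) / N := ⟨_, rfl⟩
  have hb1' : 1 / 2 ≤ b := by rw [hb]; exact hb1
  have hb3' : b ≤ 51 / 100 := by rw [hb]; exact hb3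
  rw [← hq] at hvp hfrac ⊢
  rw [hPw, hn0w] at hvp hint
  rw [hT2, hPw, hn0w]
  rw [hPf]
  obtain ⟨A, hA⟩ : ∃ A, A = av (fun θ : Sp N => Gs T (θ : E N)) / N := ⟨_, rfl⟩
  rw [← hA] at hvp ⊢
  obtain ⟨X, hX⟩ : ∃ X, X = av (fun θ => f θ * w θ) := ⟨_, rfl⟩
  rw [← hX] at hxn hint
  obtain ⟨Y, hY⟩ : ∃ Y, Y = av (fun θ => V θ * w θ ^ 2) := ⟨_, rfl⟩
  have hvp' : (1 - 1 / 1000) * (q * n1 w + 2 * n2 w + 3 * n3 w) -
      1 / 1000 * (0 + n1 w + n2 w + n3 w) ≤ A - Y := by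
    rw [hY]; exact hvp
  rw [← hY] at hint
  have k1 : 99 / 100 * n1 w ≤ q * n1 w := mul_le_mul_of_nonneg_right hfrac g1
  -- the mixed terms
  have k2 : (-(b * s)) ^ 2 * n1 f / (98 / 100) + (-(b * s)) ^ 2 * n2 f / (198 / 100) +
      (-(b * s)) ^ 2 * n3 f / (298 / 100) ≤
      b * s ^ 2 * ((1 / 4 + 1 / 50) * (n0 f + n1 f + n2 f + n3 f + n1 f)) := by
    have m1 : 0 ≤ b * s ^ 2 := mul_nonneg (by linarith) (sq_nonneg _)
    have m2 : b * n1 f ≤ 51 / 100 * n1 f := mul_le_mul_of_nonneg_right hb3' g4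
    have m3 : b * n2 f ≤ 51 / 100 * n2 f := mul_le_mul_of_nonneg_right hb3' g5
    have m4 : b * n3 f ≤ 51 / 100 * n3 f := mul_le_mul_of_nonneg_right hb3' g6
    have m5 : b * n1 f / (98 / 100) + b * n2 f / (198 / 100) + b * n3 f / (298 / 100) ≤
        (1 / 4 + 1 / 50) * (n0 f + n1 f + n2 f + n3 f + n1 f) := by
      linarith
    calc _ = b * s ^ 2 * (b * n1 f / (98 / 100) + b * n2 f / (198 / 100) +
          b * n3 f / (298 / 100)) := by ring
      _ ≤ _ := mul_le_mul_of_nonneg_left m5 m1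
  linarith

end Pool.Agent.H46.LNN
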